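import Pool.Agent.Helper61.P3.St2

/-!
# Project P3, module SHQ (helper52): Plancherel for the sums of squares
-/

set_option autoImplicit false

open MeasureTheory Set Filter Topology
open scoped ENNReal RealInnerProductSpace FourierTransform

namespace Pool.Agent.Helper52.P3

open Pool.Agent.Helper61.P3 Pool.Agent.Helper20.RG Pool.Agent.Helper20.EQ
open Pool.Agent.Helper68.LM (Pl BB Bd Av HL ft fm DQ)
open Pool.Agent.Helper68.EP (elt GapP)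

private theorem bb_int (g : Pl → ℝ) (hg : BB g) : Integrable g := by
  obtain ⟨hm, K, hK, hs⟩ := hg
  have h1 : Integrable (indicator (Metric.closedBall (0 : Pl) K) fun _ => K) :=
    (integrable_indicator_iff Metric.isClosed_closedBall.measurableSet).2
      (integrableOn_const (measure_closedBall_lt_top.ne))
  refine h1.mono' hm.aestronglyMeasurable (Filter.Eventually.of_forall fun x => ?_)
  by_cases hx : x ∈ Metric.closedBall (0 : Pl) K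
  · rw [indicator_of_mem hx, Real.norm_eq_abs]
    exact hK x
  · rw [indicator_of_notMem hx, hs x (by simpa using hx), norm_zero]

private theorem bb_sub (g h : Pl → ℝ) (hg : BB g) (hh : BB h) : BB (fun x => g x - h x) := by
  obtain ⟨hm, K, hK, hs⟩ := hg
  obtain ⟨hm', K', hK', hs'⟩ := hh
  have hK0 : 0 ≤ K := (abs_nonneg _).trans (hK 0)
  have hK0' : 0 ≤ K' := (abs_nonneg _).trans (hK' 0)
  refine ⟨hm.sub hm', K + K', fun x => ?_, fun x hx => ?_⟩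
  · have h1 := hK x
    have h2 := hK' x
    rw [abs_le] at h1 h2 ⊢
    constructor <;> linarith
  · have h1 := hs x (by linarith)
    have h2 := hs' x (by linarith)
    simp [h1, h2]

private theorem ft_sub (g h : Pl → ℝ) (hg : BB g) (hh : BB h) (ξ : Pl) :
    ft (fun x => g x - h x) ξ = ft g ξ - ft h ξ := by
  have key : ∀ f : Pl → ℝ, BB f → Integrable
      (fun v : Pl => Complex.exp (((-2 * Real.pi * ⟪v, ξ⟫ : ℝ) : ℂ) * Complex.I) • (f v : ℂ)) := by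
    intro f hf
    refine ((bb_int f hf).ofReal (𝕜 := ℂ)).mono ?_ (Filter.Eventually.of_forall fun x => ?_)
    · have hc : Continuous (fun v : Pl =>
          Complex.exp (((-2 * Real.pi * ⟪v, ξ⟫ : ℝ) : ℂ) * Complex.I)) := by
        fun_prop
      exact hc.aestronglyMeasurable.smul ((bb_int f hf).ofReal (𝕜 := ℂ)).aestronglyMeasurable
    · rw [norm_smul, Complex.norm_exp_ofReal_mul_I, one_mul]
      exact le_rfl
  unfold ft
  rw [Real.fourier_eq', Real.fourier_eq', Real.fourier_eq', ← integral_sub (key g hg) (key h hh)]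
  refine integral_congr_ae (Filter.Eventually.of_forall fun x => ?_)
  simp only [smul_eq_mul]
  push_cast
  ring

private theorem z_ft (hYB : StYB) (s : ℝ) (c : Pl) (m m' : ℕ) (ℓ : ℝ) (k : ℤ) (g : Pl → ℝ)
    (hs : |s| ≤ 1) (hl : 0 < ℓ) (hg : BB g) : BB (Z s c m m' ℓ k g) ∧
      ∀ ξ : Pl, ft (Z s c m m' ℓ k g) ξ = Zh s c m m' ℓ ((2 : ℝ) ^ k • ξ) * ft g ξ := by
  obtain ⟨h1, h2, -⟩ := hYB s c m ℓ k g hs hl hg
  obtain ⟨h1', h2', -⟩ := hYB s c m' ℓ k g hs hl hg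
  refine ⟨bb_sub _ _ h1 h1', fun ξ => ?_⟩
  have h3 : Z s c m m' ℓ k g = fun x => Y s c m ℓ k g x - Y s c m' ℓ k g x := rfl
  rw [h3, ft_sub _ _ h1 h1', h2, h2']
  unfold Zh
  ring

/-- Plancherel for a family of multiplier operators -/
private theorem core (hPL : Pool.Agent.Helper68.LM.StPL) (N : ℕ) (F : ℤ → ℕ → Pl → ℝ)
    (M : ℤ → ℕ → Pl → ℂ) (g : Pl → ℝ) (hF : ∀ k : ℤ, ∀ j < N, BB (F k j))
    (hM : ∀ k : ℤ, ∀ j < N, ∀ ξ : Pl, ft (F k j) ξ = M k j ξ * ft g ξ) (b : Pl → ℝ) (C : ℝ)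
    (hC : 0 ≤ C) (hb : ∀ ξ : Pl, ξ ≠ 0 → ∑' k : ℤ, ∑ j ∈ Finset.range N, ‖M k j ξ‖ₑ ^ 2 ≤
      ENNReal.ofReal (C * b ξ)) :
    ∑' k : ℤ, ∑ j ∈ Finset.range N, ∫⁻ x, ‖F k j x‖ₑ ^ 2 ≤
      ENNReal.ofReal C * ∫⁻ ξ, ENNReal.ofReal (b ξ) * ‖ft g ξ‖ₑ ^ 2 := by
  have hmeas : ∀ k : ℤ, ∀ j < N, Measurable fun ξ => ‖ft (F k j) ξ‖ₑ ^ 2 := by
    intro k j hj
    exact ((hPL _ (hF k j hj)).1.enorm).pow_const 2
  have h1 : ∀ k : ℤ, ∑ j ∈ Finset.range N, ∫⁻ x, ‖F k j x‖ₑ ^ 2 =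
      ∫⁻ ξ, ∑ j ∈ Finset.range N, ‖ft (F k j) ξ‖ₑ ^ 2 := by
    intro k
    rw [lintegral_finsetSum' _ (fun j hj => (hmeas k j (Finset.mem_range.1 hj)).aemeasurable)]
    refine Finset.sum_congr rfl fun j hj => ?_
    exact ((hPL _ (hF k j (Finset.mem_range.1 hj))).2).symm
  rw [tsum_congr h1, ← lintegral_tsum (fun k => (Finset.measurable_fun_sum _
    (fun j hj => hmeas k j (Finset.mem_range.1 hj))).aemeasurable), ← lintegral_const_mul' _ _ ENNReal.ofReal_ne_top]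
  apply lintegral_mono_ae
  have h0 : ∀ᵐ ξ : Pl, ξ ≠ 0 := by
    rw [ae_iff]
    simp
  filter_upwards [h0] with ξ hξ
  have h2 : ∀ k : ℤ, ∑ j ∈ Finset.range N, ‖ft (F k j) ξ‖ₑ ^ 2 =
      (∑ j ∈ Finset.range N, ‖M k j ξ‖ₑ ^ 2) * ‖ft g ξ‖ₑ ^ 2 := by
    intro k
    rw [Finset.sum_mul]
    refine Finset.sum_congr rfl fun j hj => ?_
    rw [hM k j (Finset.mem_range.1 hj) ξ, enorm_mul, mul_pow]
  rw [tsum_congr h2, ENNReal.tsum_mul_right, ← mul_assoc, ← ENNReal.ofReal_mul hC]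
  gcongr
  exact hb ξ hξ

private theorem pso_bound (s : ℝ) (m m' : ℕ) (ξ : Pl) : 0 ≤ Pso s m m' ξ ∧ Pso s m m' ξ ≤ 1 := by
  unfold Pso
  have h1 : 0 ≤ min 1 (‖ξ‖ * (2 : ℝ) ^ (-(m' : ℤ))) := le_min zero_le_one (by positivity)
  have h2 : 0 ≤ min 1 ((2 : ℝ) ^ m / ‖ξ‖) := le_min zero_le_one (by positivity)
  have h3 : 0 ≤ 1 / (1 + |⟪E s, ξ⟫|) := by positivity
  have h4 : 1 / (1 + |⟪E s, ξ⟫|) ≤ 1 := by
    rw [div_le_one (by positivity)]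
    linarith [abs_nonneg ⟪E s, ξ⟫]
  refine ⟨mul_nonneg (mul_nonneg h1 h2) h3, ?_⟩
  exact mul_le_one₀ (mul_le_one₀ (min_le_left _ _) h2 (min_le_left _ _)) h3 h4

private theorem ncard_bound (hCN : StCN) {φ τ : ℝ → ℝ} {A : ℝ} (hG : Graph φ τ)
    (hA : 0 < A) (hGap : GapP A 3 τ) (u : ℕ) (θ : ℝ) :
    ({i : ℕ | 1 ≤ i ∧ 1 ≤ (2 : ℝ) ^ u * elt τ θ i}.ncard : ℝ) ≤ A * (2 : ℝ) ^ (3 * u) := by
  have hanti : Antitone fun i => elt τ θ i :=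
    antitone_nat_of_succ_le fun i => (hCN φ τ hG 0 i θ).2.2.2.2.1
  have hsub : {i : ℕ | 1 ≤ i ∧ 1 ≤ (2 : ℝ) ^ u * elt τ θ i} ⊆
      ↑(Finset.Icc 1 ⌊A * (2 : ℝ) ^ (3 * u)⌋₊) := by
    rintro i ⟨h1, h2⟩
    rw [Finset.coe_Icc, mem_Icc]
    refine ⟨h1, ?_⟩
    apply Nat.le_floor
    have h3 : ((2 : ℝ) ^ u)⁻¹ ≤ elt τ θ i := by
      rw [inv_le_iff_one_le_mul₀' (by positivity)]
      exact h2
    have h4 : ∑ i' ∈ Finset.range i, (((2 : ℝ) ^ u)⁻¹) ^ (3 : ℝ) ≤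
        ∑ i' ∈ Finset.range i, elt τ θ (i' + 1) ^ (3 : ℝ) := by
      apply Finset.sum_le_sum
      intro i' hi'
      have h5 : elt τ θ i ≤ elt τ θ (i' + 1) := hanti (by have := Finset.mem_range.1 hi'; omega)
      exact Real.rpow_le_rpow (by positivity) (h3.trans h5) (by norm_num)
    have h6 := h4.trans (hGap θ i)
    rw [Finset.sum_const, Finset.card_range, nsmul_eq_mul, Real.rpow_ofNat, inv_pow, ← pow_mul,
      mul_comm u 3] at h6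
    rwa [← div_eq_mul_inv, div_le_iff₀ (by positivity)] at h6
  have h7 : {i : ℕ | 1 ≤ i ∧ 1 ≤ (2 : ℝ) ^ u * elt τ θ i}.ncard ≤ ⌊A * (2 : ℝ) ^ (3 * u)⌋₊ := by
    have := ncard_le_ncard hsub (Finset.finite_toSet _)
    rwa [ncard_coe_finset, Nat.card_Icc, Nat.add_sub_cancel] at this
  calc ({i : ℕ | 1 ≤ i ∧ 1 ≤ (2 : ℝ) ^ u * elt τ θ i}.ncard : ℝ)
      ≤ (⌊A * (2 : ℝ) ^ (3 * u)⌋₊ : ℝ) := by exact_mod_cast h7
    _ ≤ A * (2 : ℝ) ^ (3 * u) := Nat.floor_le (by positivity)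

theorem hSHQ (_hPT : Pool.Agent.Helper20.RG.StPT) (hYB : Pool.Agent.Helper20.RG.StYB)
    (hSYS : Pool.Agent.Helper20.RG.StSYS) (hKD : Pool.Agent.Helper20.EQ.StKD)
    (hMIM : Pool.Agent.Helper20.EQ.StMIM) (hCN : Pool.Agent.Helper20.EQ.StCN)
    (hGPG : Pool.Agent.Helper68.EP.StGPG) (hSHM : Pool.Agent.Helper61.P3.StSHM)
    (hPL : Pool.Agent.Helper68.LM.StPL) : Pool.Agent.Helper61.P3.StSHQ := by
  intro φ τ A c hG hA hGap
  have hGap' : Gap (A ^ (1 / 3 : ℝ)) 3 τ := hGPG τ A 3 hA (by norm_num) hGap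
  have hA' : 0 < A ^ (1 / 3 : ℝ) := Real.rpow_pos_of_pos hA _
  obtain ⟨C1, hC1, hK, -⟩ := hKD
  obtain ⟨C2, hC2, hM⟩ := hMIM φ τ A 3 hG hA hGap (by norm_num)
  obtain ⟨C3, hC3, hS⟩ := hSHM 200 (by norm_num)
  have hC12 : 0 ≤ C1 ^ 2 * C2 := by positivity
  refine ⟨1 + C1 ^ 2 * C2 + C3 + (1 + A), by nlinarith, ?_⟩
  intro u w g hu hg
  have hsys := (hSYS φ τ _ 3 c hG hGap' hA' (by norm_num) u (by omega)).2 hu
  have hw0 : (0 : ℝ) < (2 : ℝ) ^ w := by positivity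
  have hw1 : (1 : ℝ) ≤ (2 : ℝ) ^ w := one_le_pow₀ (by norm_num)
  have hZo : ∀ k : ℤ, ∀ j < 2 ^ u, BB (Zo τ u w k j g) ∧ ∀ ξ : Pl, ft (Zo τ u w k j g) ξ =
      Zh (sl τ u j) 0 (mm τ u j) (mp τ u j) ((2 : ℝ) ^ w) ((2 : ℝ) ^ k • ξ) * ft g ξ := by
    intro k j hj
    exact z_ft hYB _ 0 _ _ _ k g (hsys.slope j hj) hw0 hg
  have h2k : ∀ (k : ℤ) (ξ : Pl), ξ ≠ 0 → (2 : ℝ) ^ k • ξ ≠ 0 := by
    intro k ξ hξ
    have : (2 : ℝ) ^ k ≠ 0 := by positivity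
    exact smul_ne_zero this hξ
  -- first clause
  have hb1 : ∀ ξ : Pl, ξ ≠ 0 → ∑' k : ℤ, ∑ j ∈ Finset.range (2 ^ u),
      ‖Zh (sl τ u j) 0 (mm τ u j) (mp τ u j) ((2 : ℝ) ^ w) ((2 : ℝ) ^ k • ξ)‖ₑ ^ 2 ≤
      ENNReal.ofReal (C1 ^ 2 * C2 * m0 τ u (th ξ)) := by
    intro ξ hξ
    have h1 : ∀ k : ℤ, ∑ j ∈ Finset.range (2 ^ u),
        ‖Zh (sl τ u j) 0 (mm τ u j) (mp τ u j) ((2 : ℝ) ^ w) ((2 : ℝ) ^ k • ξ)‖ₑ ^ 2 ≤
        ENNReal.ofReal (C1 ^ 2) * ∑ j ∈ Finset.range (2 ^ u),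
          ENNReal.ofReal (Pso (sl τ u j) (mm τ u j) (mp τ u j) ((2 : ℝ) ^ k • ξ)) := by
      intro k
      rw [Finset.mul_sum]
      apply Finset.sum_le_sum
      intro j hj
      have hj' := Finset.mem_range.1 hj
      have h2 := hK (sl τ u j) 0 (mm τ u j) (mp τ u j) ((2 : ℝ) ^ w) ((2 : ℝ) ^ k • ξ)
        (hsys.mm j hj').1 hw1 (h2k k ξ hξ)
      obtain ⟨h3, h4⟩ := pso_bound (sl τ u j) (mm τ u j) (mp τ u j) ((2 : ℝ) ^ k • ξ)
      rw [← ENNReal.ofReal_mul (by positivity), ← ofReal_norm, ← ENNReal.ofReal_pow (norm_nonneg _)]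
      apply ENNReal.ofReal_le_ofReal
      calc ‖Zh (sl τ u j) 0 (mm τ u j) (mp τ u j) ((2 : ℝ) ^ w) ((2 : ℝ) ^ k • ξ)‖ ^ 2
          ≤ (C1 * Pso (sl τ u j) (mm τ u j) (mp τ u j) ((2 : ℝ) ^ k • ξ)) ^ 2 := by
            gcongr
        _ = C1 ^ 2 * (Pso (sl τ u j) (mm τ u j) (mp τ u j) ((2 : ℝ) ^ k • ξ) *
              Pso (sl τ u j) (mm τ u j) (mp τ u j) ((2 : ℝ) ^ k • ξ)) := by ring
        _ ≤ C1 ^ 2 * (1 * Pso (sl τ u j) (mm τ u j) (mp τ u j) ((2 : ℝ) ^ k • ξ)) := by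
            gcongr
        _ = C1 ^ 2 * Pso (sl τ u j) (mm τ u j) (mp τ u j) ((2 : ℝ) ^ k • ξ) := by ring
    calc _ ≤ ∑' k : ℤ, ENNReal.ofReal (C1 ^ 2) * ∑ j ∈ Finset.range (2 ^ u),
          ENNReal.ofReal (Pso (sl τ u j) (mm τ u j) (mp τ u j) ((2 : ℝ) ^ k • ξ)) :=
          ENNReal.tsum_le_tsum h1
      _ = ENNReal.ofReal (C1 ^ 2) * ∑' k : ℤ, ∑ j ∈ Finset.range (2 ^ u),
          ENNReal.ofReal (Pso (sl τ u j) (mm τ u j) (mp τ u j) ((2 : ℝ) ^ k • ξ)) :=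
          ENNReal.tsum_mul_left
      _ ≤ ENNReal.ofReal (C1 ^ 2) * ENNReal.ofReal (C2 * m0 τ u (th ξ)) := by
          gcongr
          exact hM u hu ξ hξ
      _ = ENNReal.ofReal (C1 ^ 2 * C2 * m0 τ u (th ξ)) := by
          rw [← ENNReal.ofReal_mul (by positivity), mul_assoc]
  have c1 : ∑' k : ℤ, ∑ j ∈ Finset.range (2 ^ u), ∫⁻ x, ‖Zo τ u w k j g x‖ₑ ^ 2 ≤
      ENNReal.ofReal (1 + C1 ^ 2 * C2 + C3 + (1 + A)) * BQ0 τ u g := by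
    refine (core hPL (2 ^ u) (fun k j => Zo τ u w k j g) (fun k j ξ =>
      Zh (sl τ u j) 0 (mm τ u j) (mp τ u j) ((2 : ℝ) ^ w) ((2 : ℝ) ^ k • ξ)) g
      (fun k j hj => (hZo k j hj).1) (fun k j hj => (hZo k j hj).2) (fun ξ => m0 τ u (th ξ))
      (C1 ^ 2 * C2) hC12 hb1).trans ?_
    unfold BQ0
    gcongr
    linarith
  refine ⟨c1, ?_, ?_, ?_⟩
  · -- second clause
    intro v l hv hvu
    refine (core hPL (2 ^ u) (fun k j x => Zo τ u w k j g x -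
      Zo τ u w (k + ((2 ^ l * Tj τ u v j : ℕ) : ℤ)) j g x) (fun k j ξ =>
      Zh (sl τ u j) 0 (mm τ u j) (mp τ u j) ((2 : ℝ) ^ w) ((2 : ℝ) ^ k • ξ) -
      Zh (sl τ u j) 0 (mm τ u j) (mp τ u j) ((2 : ℝ) ^ w)
        ((2 : ℝ) ^ (k + ((2 ^ l * Tj τ u v j : ℕ) : ℤ)) • ξ)) g
      (fun k j hj => bb_sub _ _ (hZo k j hj).1 (hZo _ j hj).1) ?_ (fun ξ => mq τ u v l (th ξ))
      C3 hC3.le ?_).trans ?_
    · intro k j hj ξ
      rw [ft_sub _ _ (hZo k j hj).1 (hZo _ j hj).1, (hZo k j hj).2, (hZo _ j hj).2]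
      ring
    · intro ξ hξ
      have h1 := hS u (fun j => τ (tm u j)) (ce c φ u) (mm τ u) (fun j => mm τ (u - 1) (j / 2)) _ _ _ _
        hsys (fun j => 2 ^ l * Tj τ u v j) w (T0 τ u v l (th ξ)) ξ hξ
      refine h1.trans (le_of_eq ?_)
      congr 2
      unfold mq
      congr 1
      refine Finset.sum_congr rfl fun j _ => ?_
      push_cast
      rfl
    · unfold BQ
      gcongr
      linarith
  · -- third clause
    have h1 : ∀ (k : ℤ) (j : ℕ), ∫⁻ x, ‖Zc c φ τ u w k j g x‖ₑ ^ 2 =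
        ∫⁻ x, ‖Zo τ u w k j g x‖ₑ ^ 2 := by
      intro k j
      have h2 : ∀ x, Zc c φ τ u w k j g x = Zo τ u w k j g (x - (2 : ℝ) ^ k • ce c φ u j) := by
        intro x
        unfold Zc Zo Z Y
        rw [smul_zero, sub_zero]
      simp only [h2]
      exact lintegral_sub_right_eq_self (fun x => ‖Zo τ u w k j g x‖ₑ ^ 2) _
    simp only [h1]
    exact c1
  · -- fourth clause
    unfold BQ0
    rw [← (hPL g hg).2, ← lintegral_const_mul' _ _ ENNReal.ofReal_ne_top]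
    apply lintegral_mono
    intro ξ
    simp only
    gcongr
    unfold m0
    have h1 := ncard_bound hCN hG hA hGap u (th ξ)
    have h2 : (u : ℝ) + 1 ≤ (2 : ℝ) ^ (3 * u) := by
      have h3 : u + 1 ≤ 2 ^ u := Nat.lt_two_pow_self
      have h4 : 2 ^ u ≤ 2 ^ (3 * u) := Nat.pow_le_pow_right (by norm_num) (by omega)
      exact_mod_cast h3.trans h4
    have h5 : (0 : ℝ) ≤ (2 : ℝ) ^ (3 * u) := by positivity
    have h6 : 0 ≤ (C1 ^ 2 * C2 + C3 + 1) * (2 : ℝ) ^ (3 * u) := by positivity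
    nlinarith

end Pool.Agent.Helper52.P3
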